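import Pool.Agent.H66.FA.T

/-! fab_modules row RC: the derivatives of the spray in the direction. -/

set_option autoImplicit false

open Matrix

namespace Pool.Agent.H80.FA

open Pool.Agent.H63.Fins Pool.Agent.H66.FA MeasureTheory Filter Topology

section

variable {m : ℕ}

/-- product rule at a zero of one factor -/
lemma mul_zero_rule {f g : ℝ → ℝ} {a g' : ℝ} (hf : ContinuousAt f a) (hg : HasDerivAt g g' a)
    (h0 : g a = 0) : HasDerivAt (fun t => f t * g t) (f a * g') a := by
  rw [hasDerivAt_iff_isLittleO] at hg ⊢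
  simp only [h0, mul_zero, sub_zero] at hg ⊢
  have h1 : (fun t => f t * g t - (t - a) • (f a * g')) = fun t =>
      f t * (g t - (t - a) • g') + (f t - f a) * ((t - a) * g') := by
    funext t
    simp only [smul_eq_mul]
    ring
  rw [h1]
  refine Asymptotics.IsLittleO.add ?_ ?_
  · have h2 : (fun t => f t * (g t - (t - a) • g')) =o[𝓝 a] fun t => (1 : ℝ) * (t - a) :=
      (hf.norm.isBoundedUnder_le.isBigO_one ℝ).mul_isLittleO hg
    simpa using h2
  · have h3 : (fun t => f t - f a) =o[𝓝 a] fun _ => (1 : ℝ) := by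
      rw [Asymptotics.isLittleO_one_iff]
      have := hf.tendsto.sub_const (f a)
      simpa using this
    have h4 : (fun t => (t - a) * g') =O[𝓝 a] fun t => (t - a) := by
      have := Asymptotics.isBigO_const_mul_self g' (fun t : ℝ => t - a) (𝓝 a)
      simpa [mul_comm] using this
    have := h3.mul_isBigO h4
    simpa using this

lemma upd_ne {n : ℕ} (v : V n) (hv : v ≠ 0) (j : Fin n) :
    ∀ᶠ t in 𝓝 (v j), Function.update v j t ≠ 0 := by
  have h : ContinuousAt (fun t : ℝ => Function.update v j t) (v j) :=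
    (hasDerivAt_update v j (v j)).continuousAt
  have h2 : Function.update v j (v j) ≠ 0 := by rwa [Function.update_eq_self]
  exact h.eventually_ne h2

/-- the function of two variables -/
def WW (La : ℝ → V (m + 1) → ℝ) : ℝ × V (m + 1) → ℝ := fun p => La p.1 p.2

lemma ne_nhds {p : ℝ × V (m + 1)} (hp : p.2 ≠ 0) : {q : ℝ × V (m + 1) | q.2 ≠ 0} ∈ 𝓝 p := by
  have ho : IsOpen {q : ℝ × V (m + 1) | q.2 ≠ 0} := isOpen_ne_fun continuous_snd continuous_const
  exact ho.mem_nhds hp

lemma ww_smooth {La : ℝ → V (m + 1) → ℝ}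
    (h : ContDiffOn ℝ (⊤ : ℕ∞) (fun p : ℝ × V (m + 1) => La p.1 p.2) {p | p.2 ≠ 0})
    {p : ℝ × V (m + 1)} (hp : p.2 ≠ 0) : ContDiffAt ℝ (⊤ : ℕ∞) (WW La) p :=
  h.contDiffAt (ne_nhds hp)

lemma d_smooth {La : ℝ → V (m + 1) → ℝ}
    (h : ContDiffOn ℝ (⊤ : ℕ∞) (fun p : ℝ × V (m + 1) => La p.1 p.2) {p | p.2 ≠ 0})
    {p : ℝ × V (m + 1)} (hp : p.2 ≠ 0) (u : ℝ × V (m + 1)) :
    ContDiffAt ℝ (⊤ : ℕ∞) (fun q => fderiv ℝ (WW La) q u) p := by
  have h1 := (ww_smooth h hp).fderiv_right (m := ((⊤ : ℕ∞) : WithTop ℕ∞)) le_rfl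
  exact h1.clm_apply contDiffAt_const

/-- derivatives along a curve -/
lemma d_curve {f : ℝ × V (m + 1) → ℝ} {c : ℝ → ℝ × V (m + 1)} {c' : ℝ × V (m + 1)} {t : ℝ}
    (hf : ContDiffAt ℝ (⊤ : ℕ∞) f (c t)) (hc : HasDerivAt c c' t) :
    HasDerivAt (fun s => f (c s)) (fderiv ℝ f (c t) c') t := by
  have h1 : HasFDerivAt f (fderiv ℝ f (c t)) (c t) :=
    (hf.differentiableAt (by simp)).hasFDerivAt
  exact h1.comp_hasDerivAt t hc

lemma curve1 (y : V (m + 1)) (t : ℝ) :
    HasDerivAt (fun s : ℝ => (s, y)) ((1 : ℝ), (0 : V (m + 1))) t :=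
  (hasDerivAt_id t).prodMk (hasDerivAt_const t y)

lemma curve2 (a : ℝ) (y : V (m + 1)) (i : Fin (m + 1)) (t : ℝ) :
    HasDerivAt (fun s : ℝ => (a, Function.update y i s)) ((0 : ℝ), (ee i : V (m + 1))) t :=
  (hasDerivAt_const t a).prodMk (hasDerivAt_update y i t)

lemma upd0 (t : ℝ) : (Function.update (0 : V (m + 1)) 0 t) 0 = t := by simp

/-- the second derivative, in coordinates -/
noncomputable def D2 (La : ℝ → V (m + 1) → ℝ) (y : V (m + 1)) (u w : ℝ × V (m + 1)) : ℝ :=
  fderiv ℝ (fun q => fderiv ℝ (WW La) q u) (0, y) w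

variable {La : ℝ → V (m + 1) → ℝ}

lemma pdyL (h : ContDiffOn ℝ (⊤ : ℕ∞) (fun p : ℝ × V (m + 1) => La p.1 p.2) {p | p.2 ≠ 0})
    (l : Fin (m + 1)) (x y : V (m + 1)) (hy : y ≠ 0) :
    pdy l (fun x y => La (x 0) y) x y = fderiv ℝ (WW La) (x 0, y) (0, ee l) := by
  have h1 := d_curve (t := y l) (c := fun s : ℝ => (x 0, Function.update y l s))
    (by simpa using ww_smooth h (p := (x 0, y)) hy) (curve2 (x 0) y l (y l))
  have h2 := h1.deriv
  simp only [Function.update_eq_self] at h2
  exact h2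

lemma T_eq (h : ContDiffOn ℝ (⊤ : ℕ∞) (fun p : ℝ × V (m + 1) => La p.1 p.2) {p | p.2 ≠ 0})
    (l : Fin (m + 1)) (y : V (m + 1)) (hy : y ≠ 0) :
    pdx 0 (pdy l fun x y => La (x 0) y) 0 y = D2 La y (0, ee l) (1, 0) := by
  have h1 := d_curve (t := 0) (c := fun s : ℝ => (s, y))
    (d_smooth h (p := (0, y)) hy (0, ee l)) (curve1 y 0)
  have h2 := h1.deriv
  unfold D2
  rw [← h2]
  show deriv (fun t => pdy l (fun x y => La (x 0) y) (Function.update (0 : V (m + 1)) 0 t) y)
    ((0 : V (m + 1)) 0) = _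
  congr 1
  funext t
  rw [pdyL h l _ y hy, upd0]

lemma S_eq (h : ContDiffOn ℝ (⊤ : ℕ∞) (fun p : ℝ × V (m + 1) => La p.1 p.2) {p | p.2 ≠ 0})
    (y : V (m + 1)) (hy : y ≠ 0) :
    pdx 0 (fun x y => La (x 0) y) 0 y = fderiv ℝ (WW La) (0, y) (1, 0) := by
  have h1 := d_curve (t := 0) (c := fun s : ℝ => (s, y))
    (ww_smooth h (p := (0, y)) hy) (curve1 y 0)
  have h2 := h1.deriv
  rw [← h2]
  show deriv (fun t => La ((Function.update (0 : V (m + 1)) 0 t) 0) y) ((0 : V (m + 1)) 0) = _
  congr 1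

lemma S_zero (v : V (m + 1)) :
    pdx 0 (fun x y => La (x 0) y) 0 v = deriv (fun s => La s v) 0 := by
  show deriv (fun t => La ((Function.update (0 : V (m + 1)) 0 t) 0) v) ((0 : V (m + 1)) 0) = _
  congr 1

lemma fund_eq {F : V (m + 1) → V (m + 1) → ℝ} (hR : IsR F La) (i l : Fin (m + 1))
    (y : V (m + 1)) (hy : y ≠ 0) : fund F 0 y i l = D2 La y (0, ee l) (0, ee i) := by
  have h := hR.smooth
  have hF : (fun x y => F x y ^ 2) = fun (x y : V (m + 1)) => 2 * La (x 0) y := by
    funext x y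
    exact hR.eq x y
  have hp : ∀ z : V (m + 1), z ≠ 0 → pdy l (fun x y => F x y ^ 2) 0 z =
      2 * fderiv ℝ (WW La) (0, z) (0, ee l) := by
    intro z hz
    rw [hF]
    have h1 := (d_curve (t := z l) (c := fun s : ℝ => ((0 : V (m + 1)) 0, Function.update z l s))
      (by simpa using ww_smooth h (p := (0, z)) hz) (curve2 _ z l (z l))).const_mul 2
    have h2 := h1.deriv
    simp only [Function.update_eq_self] at h2
    exact h2
  have h3 : HasDerivAt (fun t => pdy l (fun x y => F x y ^ 2) 0 (Function.update y i t))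
      (2 * D2 La y (0, ee l) (0, ee i)) (y i) := by
    have h4 := (d_curve (t := y i) (c := fun s : ℝ => (0, Function.update y i s))
      (by simpa using d_smooth h (p := (0, y)) hy (0, ee l)) (curve2 0 y i (y i))).const_mul 2
    simp only [Function.update_eq_self] at h4
    refine h4.congr_of_eventuallyEq ?_
    filter_upwards [upd_ne y hy i] with t ht
    exact hp _ ht
  unfold fund
  show 1 / 2 * deriv (fun t => pdy l (fun x y => F x y ^ 2) 0 (Function.update y i t)) (y i) = _
  rw [h3.deriv]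
  ring

lemma D2_symm (h : ContDiffOn ℝ (⊤ : ℕ∞) (fun p : ℝ × V (m + 1) => La p.1 p.2) {p | p.2 ≠ 0})
    (y : V (m + 1)) (hy : y ≠ 0) (u w : ℝ × V (m + 1)) : D2 La y u w = D2 La y w u := by
  have h0 : ContDiffAt ℝ (⊤ : ℕ∞) (WW La) ((0 : ℝ), y) := ww_smooth h hy
  have h1 : DifferentiableAt ℝ (fderiv ℝ (WW La)) ((0 : ℝ), y) :=
    (h0.fderiv_right (m := ((⊤ : ℕ∞) : WithTop ℕ∞)) le_rfl).differentiableAt (by simp)
  have h2 : ∀ a b : ℝ × V (m + 1), D2 La y a b = fderiv ℝ (fderiv ℝ (WW La)) (0, y) b a := by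
    intro a b
    unfold D2
    rw [fderiv_clm_apply h1 (differentiableAt_const a)]
    simp
  rw [h2, h2]
  have h3 : IsSymmSndFDerivAt ℝ (WW La) ((0 : ℝ), y) :=
    h0.isSymmSndFDerivAt (by
      rw [minSmoothness_of_isRCLikeNormedField]
      exact WithTop.coe_le_coe.2 (le_top : (2 : ℕ∞) ≤ ⊤))
  exact h3 w u

lemma D2_cont (h : ContDiffOn ℝ (⊤ : ℕ∞) (fun p : ℝ × V (m + 1) => La p.1 p.2) {p | p.2 ≠ 0})
    (v : V (m + 1)) (hv : v ≠ 0) (j : Fin (m + 1)) (u w : ℝ × V (m + 1)) :
    ContinuousAt (fun t => D2 La (Function.update v j t) u w) (v j) := by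
  have h1 : ContDiffAt ℝ (⊤ : ℕ∞) (fun q => fderiv ℝ (WW La) q u) ((0 : ℝ), v) := d_smooth h hv u
  have h2 : ContDiffAt ℝ (⊤ : ℕ∞) (fun q => fderiv ℝ (fun q' => fderiv ℝ (WW La) q' u) q w)
      ((0 : ℝ), v) :=
    (h1.fderiv_right (m := ((⊤ : ℕ∞) : WithTop ℕ∞)) le_rfl).clm_apply contDiffAt_const
  have h3 := d_curve (t := v j) (c := fun s : ℝ => ((0 : ℝ), Function.update v j s))
    (by simpa using h2) (curve2 0 v j (v j))
  exact h3.continuousAt

theorem pf_RC (h1 : T_PDF) (h2 : T_RA) : T_RC := by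
  have _ := h1
  intro m F La hR v hv hv0 hS j k
  have h := hR.smooth
  have hne := upd_ne v hv j
  have hc0 : Function.update v j (v j) = v := Function.update_eq_self j v
  -- continuity of the inverse matrix
  have hent : ∀ i l, ContinuousAt (fun t => fund F 0 (Function.update v j t) i l) (v j) := by
    intro i l
    refine (D2_cont h v hv j (0, ee l) (0, ee i)).congr ?_
    filter_upwards [hne] with t ht
    exact (fund_eq hR i l _ ht).symm
  have hmat0 : @ContinuousAt ℝ (Fin (m + 1) → Fin (m + 1) → ℝ) _ _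
      (fun t => fund F 0 (Function.update v j t)) (v j) :=
    continuousAt_pi.2 fun i => continuousAt_pi.2 fun l => hent i l
  have hmat : ContinuousAt (fun t => fund F 0 (Function.update v j t)) (v j) := hmat0
  have hdet0 : (fund F 0 v).det ≠ 0 := (hR.pos 0 v hv).det_pos.ne'
  have hinv : ∀ l, ContinuousAt (fun t => (fund F 0 (Function.update v j t))⁻¹ k l) (v j) := by
    intro l
    have ha : ContinuousAt (fun t => (fund F 0 (Function.update v j t)).adjugate) (v j) :=
      (continuous_id.matrix_adjugate (R := ℝ) (n := Fin (m + 1))).continuousAt.comp hmat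
    have hd : ContinuousAt (fun t => (fund F 0 (Function.update v j t)).det) (v j) :=
      (continuous_id.matrix_det (R := ℝ) (n := Fin (m + 1))).continuousAt.comp hmat
    have ha1 : @ContinuousAt ℝ (Fin (m + 1) → Fin (m + 1) → ℝ) _ _
      (fun t => (fund F 0 (Function.update v j t)).adjugate) (v j) := ha
    have ha2 : ContinuousAt (fun t => (fund F 0 (Function.update v j t)).adjugate k l) (v j) :=
      (continuousAt_pi.1 ((continuousAt_pi.1 ha1) k)) l
    have hd2 : ContinuousAt (fun t => (fund F 0 (Function.update v j t)).det⁻¹) (v j) :=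
      hd.inv₀ (by rw [hc0]; exact hdet0)
    refine (hd2.mul ha2).congr (Eventually.of_forall fun t => ?_)
    show _ = (fund F 0 (Function.update v j t))⁻¹ k l
    rw [Matrix.inv_def]
    simp [Ring.inverse_eq_inv']
  -- the bracket
  have hTc : ∀ l, ContinuousAt
      (fun t => pdx 0 (pdy l fun x y => La (x 0) y) 0 (Function.update v j t)) (v j) := by
    intro l
    refine (D2_cont h v hv j (0, ee l) (1, 0)).congr ?_
    filter_upwards [hne] with t ht
    exact (T_eq h l _ ht).symm
  have hy0 : HasDerivAt (fun t => (Function.update v j t) 0) ((ee j : V (m + 1)) 0) (v j) :=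
    (hasDerivAt_pi.1 (hasDerivAt_update v j (v j))) 0
  have hSd : HasDerivAt (fun t => pdx 0 (fun x y => La (x 0) y) 0 (Function.update v j t))
      (ta La v j) (v j) := by
    have h3 := d_curve (t := v j) (c := fun s : ℝ => ((0 : ℝ), Function.update v j s))
      (by simpa using d_smooth h (p := (0, v)) hv (1, 0)) (curve2 0 v j (v j))
    simp only [hc0] at h3
    have h4 : fderiv ℝ (fun q => fderiv ℝ (WW La) q (1, 0)) (0, v) (0, ee j) = ta La v j := by
      have h5 := D2_symm h v hv (1, 0) (0, ee j)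
      have h6 := T_eq h j v hv
      unfold ta
      rw [h6, ← h5]
      rfl
    rw [h4] at h3
    refine h3.congr_of_eventuallyEq ?_
    filter_upwards [hne] with t ht
    exact S_eq h _ ht
  have hg : ∀ l, HasDerivAt (fun t => (Function.update v j t) 0 *
      pdx 0 (pdy l fun x y => La (x 0) y) 0 (Function.update v j t) -
        if l = 0 then pdx 0 (fun x y => La (x 0) y) 0 (Function.update v j t) else 0)
      (ta La v l * (ee j : V (m + 1)) 0 - if l = 0 then ta La v j else 0) (v j) := by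
    intro l
    have h5 := mul_zero_rule (hTc l) hy0 (by rw [hc0]; exact hv0)
    rw [hc0] at h5
    have h6 : HasDerivAt (fun t => (Function.update v j t) 0 *
        pdx 0 (pdy l fun x y => La (x 0) y) 0 (Function.update v j t))
        (ta La v l * (ee j : V (m + 1)) 0) (v j) := by
      refine h5.congr_of_eventuallyEq (Eventually.of_forall fun t => ?_)
      exact mul_comm _ _
    by_cases hl : l = 0
    · simp only [hl, if_true] at h6 ⊢
      exact h6.sub hSd
    · simp only [hl, if_false]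
      exact h6.sub (hasDerivAt_const _ _)
  have hg0 : ∀ l, (Function.update v j (v j)) 0 *
      pdx 0 (pdy l fun x y => La (x 0) y) 0 (Function.update v j (v j)) -
        (if l = 0 then pdx 0 (fun x y => La (x 0) y) 0 (Function.update v j (v j)) else 0) = 0 := by
    intro l
    rw [hc0, hv0, S_zero, hS]
    simp
  have hsum : HasDerivAt (fun t => ∑ l, (fund F 0 (Function.update v j t))⁻¹ k l *
      ((Function.update v j t) 0 *
      pdx 0 (pdy l fun x y => La (x 0) y) 0 (Function.update v j t) -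
        if l = 0 then pdx 0 (fun x y => La (x 0) y) 0 (Function.update v j t) else 0))
      (∑ l, (fund F 0 v)⁻¹ k l *
        (ta La v l * (ee j : V (m + 1)) 0 - if l = 0 then ta La v j else 0)) (v j) := by
    refine HasDerivAt.fun_sum fun l _ => ?_
    have h7 := mul_zero_rule (hinv l) (hg l) (hg0 l)
    rw [hc0] at h7
    exact h7
  have hfin : HasDerivAt (fun t => spray F 0 (Function.update v j t) k)
      (1 / 2 * ∑ l, (fund F 0 v)⁻¹ k l *
        (ta La v l * (ee j : V (m + 1)) 0 - if l = 0 then ta La v j else 0)) (v j) := by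
    refine (hsum.const_mul (1 / 2)).congr_of_eventuallyEq ?_
    filter_upwards [hne] with t ht
    exact h2 m F La hR 0 _ k ht
  show deriv (fun t => spray F 0 (Function.update v j t) k) (v j) = _
  rw [hfin.deriv]
  congr 1
  simp only [mul_sub, Finset.sum_sub_distrib]
  congr 1
  · by_cases hj : j = 0
    · subst hj
      simp [ee]
    · have : (ee j : V (m + 1)) 0 = 0 := by
        unfold ee
        rw [Pi.single_eq_of_ne (Ne.symm hj)]
      simp [this, hj]
  · simp

end

end Pool.Agent.H80.FA
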